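import Pool.Agent.H44.FB.Basics
import Pool.Agent.H53.GM.Targets3

/-!
# The injective part for structures with local completions: the list of the connected structures
which are not realized (LST)
-/

set_option autoImplicit false

namespace Pool.Agent.H36.FB

open Pool.Agent.H68.BP Pool.Agent.H58.SF Pool.Agent.H53.NR
open Pool.Agent.H53.GC (arP relP strOn sigOf)
open Pool.Agent.H53.GR (Ps Dm)
open Pool.Agent.H53.GM (Connected Avoids Val Cols DmG)
open Pool.Agent.H53.GX (FmX)
open Pool.Agent.H57.AR (tp ty Ty)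
open Pool.Agent.H57.EQ (Cx)
open Pool.Agent.H57.SO (fib sigF SF)
open Pool.Agent.H57.LH (SS vs c0 Blind NCB Cor Prs tfL SyL)
open Pool.Agent.H44.KR Pool.Agent.H44.FB
open Function Classical

/-- the list for a structure whose realizability is local -/
theorem exists_con_list (hCMP : Pool.Agent.H53.GM.T_CMP) {V : Type} [Nonempty V] (τ : Sig)
    (hτ : ∀ l, 1 ≤ τ.ar l) (CC : Str τ V) (N : ℕ)
    (hloc : ∀ (n : ℕ) (M : Str τ (Fin n)),
      (∀ U : Finset (Fin n), U.card ≤ N → ∃ f : Fin n → V,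
        ∀ (c : Fin τ.m) (x : Fin (τ.ar c) → Fin n), M c x →
          (∀ a, x a ∈ U) → CC c (fun a => f (x a))) →
      ∃ f : Fin n → V, IsHom M CC f) :
    ∃ L : List (Σ n : ℕ, Str τ (Fin n)),
      (∀ D ∈ L, Connected D.2) ∧ ∀ (W : Type) [Finite W] (M : Str τ W),
        Avoids L M ↔ ∃ f : W → V, IsHom M CC f := by
  have hch : ∀ D : (Σ k : Fin (N + 1), Str τ (Fin (k : ℕ))),
      ∃ L : List (Σ n : ℕ, Str τ (Fin n)), (∀ C ∈ L, Connected C.2) ∧
      ∀ (W : Type) (M : Str τ W), (∃ f : Fin (D.1 : ℕ) → W, IsHom D.2 M f) ↔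
        ∀ C ∈ L, ∃ f : Fin C.1 → W, IsHom C.2 M f := fun D => hCMP τ _ D.2 hτ
  choose LD hLD1 hLD2 using hch
  have hfin0 : Finite (Σ k : Fin (N + 1), Str τ (Fin (k : ℕ))) := by
    have : ∀ k : Fin (N + 1), Finite (Str τ (Fin (k : ℕ))) := fun k => by
      unfold Str
      infer_instance
    infer_instance
  set S : Set (Σ n : ℕ, Str τ (Fin n)) := {C | (∃ D, C ∈ LD D) ∧
    ¬ ∃ f : Fin C.1 → V, IsHom C.2 CC f} with hS
  have hSfin : S.Finite := by
    refine Set.Finite.subset (s := ⋃ D, {C | C ∈ LD D}) (Set.finite_iUnion fun D =>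
      List.finite_toSet (LD D)) ?_
    rintro C ⟨⟨D, hD⟩, -⟩
    exact Set.mem_iUnion.2 ⟨D, hD⟩
  refine ⟨hSfin.toFinset.toList, ?_, ?_⟩
  · intro C hC
    rw [Finset.mem_toList, Set.Finite.mem_toFinset] at hC
    obtain ⟨⟨D, hD⟩, -⟩ := hC
    exact hLD1 D C hD
  · intro W _ M
    constructor
    · intro hav
      set n := Nat.card W with hn
      let e : W ≃ Fin n := Finite.equivFin W
      let M' : Str τ (Fin n) := fun c x => M c (fun i => e.symm (x i))
      obtain ⟨f, hf⟩ := hloc n M' (by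
        intro U hU
        let D : (Σ k : Fin (N + 1), Str τ (Fin (k : ℕ))) :=
          ⟨⟨U.card, Nat.lt_succ_of_le hU⟩, fun c z => M' c (fun i => (U.equivFin.symm (z i)).1)⟩
        have hD : ∃ f : Fin (D.1 : ℕ) → V, IsHom D.2 CC f := by
          rw [hLD2 D V CC]
          intro C hC
          by_contra hno
          have hCS : C ∈ hSfin.toFinset.toList := by
            rw [Finset.mem_toList, Set.Finite.mem_toFinset]
            exact ⟨⟨D, hC⟩, hno⟩
          obtain ⟨g, hg⟩ := (hLD2 D W M).1 ⟨fun i => e.symm (U.equivFin.symm i).1,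
            fun c x hx => hx⟩ C hC
          exact hav C hCS g hg
        obtain ⟨f₀, hf₀⟩ := hD
        refine ⟨fun x => if hx : x ∈ U then f₀ (U.equivFin ⟨x, hx⟩) else Classical.arbitrary V,
          ?_⟩
        intro c x hx hxU
        have h1 : (fun a => (if hx : x a ∈ U then f₀ (U.equivFin ⟨x a, hx⟩)
            else Classical.arbitrary V)) = fun a => f₀ (U.equivFin ⟨x a, hxU a⟩) :=
          funext fun a => dif_pos (hxU a)
        rw [h1]
        refine hf₀ c (fun a => U.equivFin ⟨x a, hxU a⟩) ?_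
        show M' c (fun a => (U.equivFin.symm (U.equivFin ⟨x a, hxU a⟩)).1)
        have h2 : (fun a => (U.equivFin.symm (U.equivFin ⟨x a, hxU a⟩)).1) = x :=
          funext fun a => by rw [Equiv.symm_apply_apply]
        rw [h2]
        exact hx)
      refine ⟨fun w => f (e w), fun c x hx => hf c (fun i => e (x i)) ?_⟩
      show M c (fun i => e.symm (e (x i)))
      have h3 : (fun i => e.symm (e (x i))) = x := funext fun i => e.symm_apply_apply (x i)
      rw [h3]
      exact hx
    · rintro ⟨f, hf⟩ C hC g hg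
      rw [Finset.mem_toList, Set.Finite.mem_toFinset] at hC
      exact hC.2 ⟨fun i => f (g i), fun c x hx => hf c _ (hg c x hx)⟩

theorem pf_LST (hCMP : Pool.Agent.H53.GM.T_CMP) : T_LST := by
  intro V _ σ ρ 𝔹 m B N hloc
  exact exists_con_list hCMP (sigC 𝔹 σ m) (fun c => (co 𝔹 σ m c).2) (NC 𝔹 σ m B) N hloc

end Pool.Agent.H36.FB
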